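import Pool.Agent.Helper72.MK.GoalsT

/-! Packet MK-SEG: volume of the sum of a compact set with a segment. -/

open MeasureTheory Set
open scoped ENNReal

noncomputable section

namespace Pool.Agent.Helper45.MK

open Pool.Agent.Helper72.MK

theorem vol_fibre (i : Fin 3) (A : Set (Fin 3 → ℝ)) (hA : MeasurableSet A) :
    volume A = ∫⁻ y : Fin 2 → ℝ, volume {s : ℝ | (i.insertNth s y : Fin 3 → ℝ) ∈ A} := by
  let e := MeasurableEquiv.piFinSuccAbove (fun _ : Fin 3 => ℝ) i
  have he : MeasurePreserving e volume (volume.prod volume) :=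
    volume_preserving_piFinSuccAbove (fun _ => ℝ) i
  have h1 := he.symm.measure_preimage hA.nullMeasurableSet
  rw [← h1, Measure.prod_apply_symm (e.symm.measurable hA)]
  rfl

theorem seg : SEGStmt := by
  intro K i _ hK t ht
  set S := {x : Fin 3 → ℝ | ∃ y ∈ K, ∃ s ∈ Icc (0 : ℝ) t, x = y + Pi.single i s} with hS
  have hScomp : IsCompact S := by
    have h1 : S = (fun p : (Fin 3 → ℝ) × ℝ => p.1 + Pi.single i p.2) '' (K ×ˢ Icc 0 t) := by
      ext x
      simp only [hS, mem_ofPred_eq, mem_image, mem_prod, Prod.exists]
      constructor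
      · rintro ⟨y, hy, s, hs, rfl⟩
        exact ⟨y, s, ⟨hy, hs⟩, rfl⟩
      · rintro ⟨y, s, ⟨hy, hs⟩, rfl⟩
        exact ⟨y, hy, s, hs, rfl⟩
    rw [h1]
    refine (hK.prod isCompact_Icc).image ?_
    exact continuous_fst.add ((continuous_single i).comp continuous_snd)
  have hprc : IsCompact (pr i K) := hK.image (continuous_pi fun j => continuous_apply _)
  rw [vol_fibre i K hK.measurableSet, vol_fibre i S hScomp.measurableSet,
    ← lintegral_indicator_one hprc.measurableSet, ← lintegral_const_mul' _ _ ENNReal.ofReal_ne_top,
    ← lintegral_add_right]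
  · refine lintegral_mono fun y => ?_
    by_cases hy : y ∈ pr i K
    · simp only [indicator_of_mem hy, Pi.one_apply, mul_one]
      set F := {s : ℝ | (i.insertNth s y : Fin 3 → ℝ) ∈ K} with hF
      have hcont : Continuous fun s : ℝ => (i.insertNth s y : Fin 3 → ℝ) := by
        refine continuous_pi fun j => ?_
        refine Fin.succAboveCases i ?_ (fun k => ?_) j
        · simpa using continuous_id'
        · simpa using continuous_const
      have hFc : IsCompact F := by
        have h2 : F ⊆ (fun x : Fin 3 → ℝ => x i) '' K := by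
          intro s hs
          exact ⟨_, hs, by simp⟩
        exact (hK.image (continuous_apply i)).of_isClosed_subset (hK.isClosed.preimage hcont) h2
      have hFne : F.Nonempty := by
        obtain ⟨x, hx, rfl⟩ := hy
        refine ⟨x i, ?_⟩
        rw [hF, mem_ofPred_eq]
        have : (i.insertNth (x i) (fun j => x (i.succAbove j)) : Fin 3 → ℝ) = x :=
          Fin.insertNth_self_removeNth i x
        rw [this]
        exact hx
      obtain ⟨r, hrF, hr⟩ := hFc.exists_isGreatest hFne
      have hsub : F ∪ Ioc r (r + t) ⊆ {s : ℝ | (i.insertNth s y : Fin 3 → ℝ) ∈ S} := by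
        rintro s (hs | hs)
        · refine ⟨_, hs, 0, ⟨le_rfl, ht⟩, by simp⟩
        · refine ⟨_, hrF, s - r, ⟨by linarith [hs.1], by linarith [hs.2]⟩, ?_⟩
          ext j
          refine Fin.succAboveCases i ?_ (fun k => ?_) j
          · simp
          · simp
      have hdisj : Disjoint F (Ioc r (r + t)) := by
        rw [Set.disjoint_left]
        intro s hs hs'
        exact absurd (hr hs) (not_le.2 hs'.1)
      calc volume F + ENNReal.ofReal t = volume F + volume (Ioc r (r + t)) := by
            rw [Real.volume_Ioc]; congr 2; ring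
        _ = volume (F ∪ Ioc r (r + t)) := (measure_union hdisj measurableSet_Ioc).symm
        _ ≤ _ := measure_mono hsub
    · simp only [indicator_of_notMem hy, mul_zero, add_zero]
      refine measure_mono ?_
      intro s hs
      exact ⟨_, hs, 0, ⟨le_rfl, ht⟩, by simp⟩
  · exact (measurable_one.indicator hprc.measurableSet).const_mul _

end Pool.Agent.Helper45.MK
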